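import Mathlib

namespace Pool.Agent.Results.MP_cbd977_an.Counter

open scoped InnerProductSpace ComplexOrder

/-- `ℂⁿ`. -/
abbrev V (n : ℕ) : Type := EuclideanSpace ℂ (Fin n)

/-- A reproducing kernel: all finite Gram matrices are positive semi-definite. -/
def IsKernel {X : Type} (k : X → X → ℂ) : Prop :=
  ∀ (m : ℕ) (z : Fin m → X), (Matrix.of fun i j => k (z i) (z j)).PosSemidef

/-- The block matrix `[(I - W_i W_j^*) k(z_i,z_j)]` is positive semi-definite. -/
def PickPos {X ι : Type} [Fintype ι] {n : ℕ} (k : X → X → ℂ) (z : ι → X)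
    (W : ι → V n →L[ℂ] V n) : Prop :=
  ∀ v : ι → V n, 0 ≤ ∑ i, ∑ j, k (z i) (z j) * ⟪v i, (1 - W i * star (W j)) (v j)⟫_ℂ

/-- `Φ` is a contractive multiplier of the `ℂⁿ`-valued RKHS with kernel `l · I`. -/
def ContrMult {X : Type} {n : ℕ} (l : X → X → ℂ) (Φ : X → V n →L[ℂ] V n) : Prop :=
  ∀ (H : Type) [NormedAddCommGroup H] [InnerProductSpace ℂ H] [CompleteSpace H]
    [RKHS ℂ H X (V n)], (∀ x y, RKHS.kernel H x y = l x y • (1 : V n →L[ℂ] V n)) →
      ∀ f : H, ∃ g : H, ‖g‖ ≤ ‖f‖ ∧ ∀ x, g x = Φ x (f x)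

/-- Complete pseudo-Pick pairs. -/
def PseudoPick {X : Type} (k l : X → X → ℂ) : Prop :=
  ∀ n : ℕ, 1 ≤ n → ∀ (z : Fin n → X) (W : Fin n → V n →L[ℂ] V n), PickPos k z W →
    ∃ Φ : X → V n →L[ℂ] V n, ContrMult l Φ ∧ ∀ i, Φ (z i) = W i

noncomputable def cc (t : ℝ) (x y : Fin 3) : ℂ := if x = y then 1 else (t : ℂ)

variable {n : ℕ}

noncomputable def be (S T : V n →L[ℂ] V n) (a b : V n) : ℝ :=
  (⟪a, b⟫_ℂ).re - (⟪star S a, star T b⟫_ℂ).re

lemma be_symm (S T : V n →L[ℂ] V n) (a b : V n) : be S T a b = be T S b a := by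
  unfold be
  rw [← inner_conj_symm a b, ← inner_conj_symm (star S a), Complex.conj_re, Complex.conj_re]

lemma be_eq (S T : V n →L[ℂ] V n) (a b : V n) :
    (⟪a, (1 - S * star T) b⟫_ℂ).re = be S T a b := by
  simp [be, inner_sub_right, ContinuousLinearMap.star_eq_adjoint,
    ContinuousLinearMap.adjoint_inner_left]

lemma be_addl (S T : V n →L[ℂ] V n) (a b c : V n) : be S T (a + b) c = be S T a c + be S T b c := by
  simp only [be, map_add, inner_add_left, Complex.add_re]; ring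

lemma be_addr (S T : V n →L[ℂ] V n) (a b c : V n) : be S T c (a + b) = be S T c a + be S T c b := by
  simp only [be, map_add, inner_add_right, Complex.add_re]; ring

lemma be_smull (S T : V n →L[ℂ] V n) (t : ℝ) (a c : V n) :
    be S T ((t : ℂ) • a) c = t * be S T a c := by
  simp only [be, map_smul, inner_smul_left, Complex.conj_ofReal, Complex.re_ofReal_mul]; ring

lemma be_smulr (S T : V n →L[ℂ] V n) (t : ℝ) (a c : V n) :
    be S T c ((t : ℂ) • a) = t * be S T c a := by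
  simp only [be, map_smul, inner_smul_right, Complex.re_ofReal_mul]; ring

lemma be_zl (S T : V n →L[ℂ] V n) (c : V n) : be S T 0 c = 0 := by simp [be]
lemma be_zr (S T : V n →L[ℂ] V n) (c : V n) : be S T c 0 = 0 := by simp [be]

lemma core (S T : V n →L[ℂ] V n) (h1 : ∀ a, 0 ≤ be S S a a)
    (h2 : ∀ a b, 0 ≤ be S S a a + be T T b b + be S T a b) (a b c : V n) :
    0 ≤ be S S a a + be T T b b + be S S c c + 2 / 3 * (be S T a b + be S T c b + be S S a c) := by
  have e1 := h2 (((2 / 3 : ℝ) : ℂ) • (a + c)) b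
  have e2 := h1 (a + c)
  have e3 := h1 (a + ((-1 : ℝ) : ℂ) • c)
  simp only [be_smull, be_smulr, be_addl, be_addr, be_symm S S c a] at e1 e2 e3
  linarith

lemma pull {X ι κ : Type} [Fintype ι] [Fintype κ] (k : X → X → ℂ) (z : ι → X)
    (W : ι → V n →L[ℂ] V n) (h : PickPos k z W) (s : κ → ι) : PickPos k (z ∘ s) (W ∘ s) := by
  classical
  intro u
  have := h fun i => ∑ t ∈ Finset.univ.filter (fun t => s t = i), u t
  refine this.trans_eq ?_
  simp only [sum_inner, map_sum, inner_sum, Finset.mul_sum, Function.comp]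
  rw [← Finset.sum_fiberwise Finset.univ s]
  refine Finset.sum_congr rfl fun i _ => ?_
  simp only [Finset.sum_comm (s := Finset.univ.filter (fun t => s t = _))
    (t := Finset.univ.filter (fun t => s t = i))]
  rw [Finset.sum_comm]
  refine Finset.sum_congr rfl fun t ht => ?_
  rw [← Finset.sum_fiberwise Finset.univ s]
  refine Finset.sum_congr rfl fun j _ => Finset.sum_congr rfl fun r hr => ?_
  rw [(Finset.mem_filter.mp ht).2, (Finset.mem_filter.mp hr).2]

lemma cc_re (t : ℝ) (x y : Fin 3) (w : ℂ) :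
    (cc t x y * w).re = (if x = y then 1 else t) * w.re := by
  unfold cc; split_ifs <;> simp

lemma pos_re {ι : Type} [Fintype ι] {t : ℝ} {z : ι → Fin 3} {W : ι → V n →L[ℂ] V n}
    (h : PickPos (cc t) z W) (v : ι → V n) :
    0 ≤ ∑ i, ∑ j, (if z i = z j then 1 else t) * be (W i) (W j) (v i) (v j) := by
  have := (Complex.le_def.mp (h v)).1
  simpa only [Complex.re_sum, cc_re, be_eq, Complex.zero_re] using this

lemma dd (S T : V n →L[ℂ] V n) (a : V n) :
    be S S a a + be T T a a - 2 * be S T a a = -‖star S a - star T a‖ ^ 2 := by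
  rw [@norm_sub_sq ℂ]
  simp only [be, inner_self_eq_norm_sq_to_K, RCLike.re_to_complex]
  norm_cast
  simp only [Complex.coe_algebraMap, Complex.ofReal_re]
  ring

lemma eq_of (S T : V n →L[ℂ] V n)
    (h : ∀ a, 2 * be S T a a ≤ be S S a a + be T T a a) : S = T := by
  apply star_injective
  ext1 a
  have e : ‖star S a - star T a‖ ^ 2 ≤ 0 := by linarith [h a, dd S T a]
  exact sub_eq_zero.mp (norm_eq_zero.mp (pow_eq_zero_iff two_ne_zero |>.mp
    (le_antisymm e (sq_nonneg _))))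

lemma two {ι : Type} [Fintype ι] {z : ι → Fin 3} {W : ι → V n →L[ℂ] V n}
    (h : PickPos (cc (-1 / 2)) z W) (i j : ι) (a b : V n) :
    0 ≤ be (W i) (W i) a a + be (W j) (W j) b b +
      2 * (if z i = z j then 1 else -1 / 2) * be (W i) (W j) a b := by
  have := pos_re (pull _ _ _ h ![i, j]) ![a, b]
  simp only [Fin.sum_univ_two, Function.comp, Matrix.cons_val_zero, Matrix.cons_val_one,
    if_true, be_symm (W j) (W i), eq_comm (a := z j)] at this
  linarith

lemma same {ι : Type} [Fintype ι] {z : ι → Fin 3} {W : ι → V n →L[ℂ] V n}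
    (h : PickPos (cc (-1 / 2)) z W) (i j : ι) (hz : z i = z j) : W i = W j := by
  refine eq_of _ _ fun a => ?_
  have := two h i j a (((-1 : ℝ) : ℂ) • a)
  simp only [hz, if_true, be_smull, be_smulr] at this
  linarith

lemma one {ι : Type} [Fintype ι] {z : ι → Fin 3} {W : ι → V n →L[ℂ] V n}
    (h : PickPos (cc (-1 / 2)) z W) (i : ι) (a : V n) : 0 ≤ be (W i) (W i) a a := by
  simpa only [be_zr, be_zl, mul_zero, add_zero] using two h i i a 0

lemma two' {ι : Type} [Fintype ι] {z : ι → Fin 3} {W : ι → V n →L[ℂ] V n}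
    (h : PickPos (cc (-1 / 2)) z W) (i j : ι) (a b : V n) :
    0 ≤ be (W i) (W i) a a + be (W j) (W j) b b + be (W i) (W j) a b := by
  have h1 := two h i j a b
  have h2 := two h i j a (((-1 : ℝ) : ℂ) • b)
  simp only [be_smull, be_smulr] at h2
  have := one h i a
  have := one h j b
  split_ifs at h1 h2 <;> linarith

lemma three {y : Fin 3 → Fin 3} {W : Fin 3 → V n →L[ℂ] V n}
    (h : PickPos (cc (-1 / 2)) y W) : W 0 = W 1 ∨ W 0 = W 2 ∨ W 1 = W 2 := by
  by_cases h01 : y 0 = y 1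
  · exact Or.inl (same h 0 1 h01)
  by_cases h02 : y 0 = y 2
  · exact Or.inr (Or.inl (same h 0 2 h02))
  by_cases h12 : y 1 = y 2
  · exact Or.inr (Or.inr (same h 1 2 h12))
  refine Or.inl (eq_of _ _ fun a => ?_)
  have := pos_re h fun _ => a
  simp only [Fin.sum_univ_three, if_true, h01, h02, h12, Ne.symm h01, Ne.symm h02, Ne.symm h12,
    if_false, be_symm (W 1) (W 0), be_symm (W 2) (W 0), be_symm (W 2) (W 1)] at this
  nlinarith [dd (W 0) (W 2) a, dd (W 1) (W 2) a, sq_nonneg ‖star (W 0) a - star (W 2) a‖,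
    sq_nonneg ‖star (W 1) a - star (W 2) a‖]

lemma lpos {y : Fin 3 → Fin 3} {W : Fin 3 → V n →L[ℂ] V n}
    (h : PickPos (cc (-1 / 2)) y W) (v : Fin 3 → V n) :
    0 ≤ ∑ i, ∑ j, (if i = j then 1 else 1 / 3) * be (W i) (W j) (v i) (v j) := by
  simp only [Fin.sum_univ_three, if_true, Fin.isValue, Fin.reduceEq, if_false,
    be_symm (W 1) (W 0) (v 1), be_symm (W 2) (W 0) (v 2), be_symm (W 2) (W 1) (v 2)]
  rcases three h with e | e | e
  · have := core (W 0) (W 2) (one h 0) (two' h 0 2) (v 0) (v 2) (v 1)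
    rw [← e]; linarith
  · have := core (W 0) (W 1) (one h 0) (two' h 0 1) (v 0) (v 1) (v 2)
    rw [← e, be_symm (W 1) (W 0) (v 1)]; linarith
  · have := core (W 1) (W 0) (one h 1) (two' h 1 0) (v 1) (v 0) (v 2)
    rw [← e, be_symm (W 0) (W 1) (v 0) (v 1), be_symm (W 0) (W 1) (v 0) (v 2)]; linarith

lemma mult (Φ : Fin 3 → V n →L[ℂ] V n) (h : ∀ v : Fin 3 → V n,
    0 ≤ ∑ i, ∑ j, (if i = j then 1 else 1 / 3) * be (Φ i) (Φ j) (v i) (v j)) :
    ContrMult (cc (1 / 3)) Φ := by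
  intro H _ _ _ _ hK f
  set F : Fin 3 → V n := fun x => Φ x (f x) with hF
  set u : Fin 3 → V n := fun x => (3 / 2 : ℂ) • F x - (3 / 10 : ℂ) • (F 0 + F 1 + F 2) with hu
  have hval : ∀ (p : Fin 3 → V n) (x : Fin 3),
      (∑ y, RKHS.kerFun H y (p y)) x = ∑ y, cc (1 / 3) x y • p y := by
    intro p x
    simp only [Fin.sum_univ_three, RKHS.coe_add, Pi.add_apply, RKHS.kerFun_apply, hK]
    simp
  have hnorm : ∀ p : Fin 3 → V n, ‖∑ y, RKHS.kerFun H y (p y)‖ ^ 2 =
      ∑ i, ∑ j, (if i = j then 1 else 1 / 3) * (⟪p i, p j⟫_ℂ).re := by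
    intro p
    rw [@norm_sq_eq_re_inner ℂ, sum_inner]
    simp only [RKHS.kerFun_inner, hval]
    simp only [inner_sum, inner_smul_right, RCLike.re_to_complex, Complex.re_sum, cc_re]
  have hg : ∀ x, (∑ y, RKHS.kerFun H y (u y)) x = F x := by
    intro x
    rw [hval]
    fin_cases x <;> simp [Fin.sum_univ_three, cc, hu] <;> module
  refine ⟨∑ y, RKHS.kerFun H y (u y), ?_, hg⟩
  set g := ∑ y, RKHS.kerFun H y (u y) with hgd
  set g' := ∑ y, RKHS.kerFun H y (star (Φ y) (u y)) with hgd'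
  have h1 : ‖g'‖ ≤ ‖g‖ := by
    have := h u
    simp only [be, mul_sub, Finset.sum_sub_distrib] at this
    rw [← hnorm u, ← hnorm fun y => star (Φ y) (u y)] at this
    exact (sq_le_sq₀ (norm_nonneg _) (norm_nonneg _)).mp (by linarith)
  have h2 : ⟪g, g⟫_ℂ = ⟪g', f⟫_ℂ := by
    change ⟪∑ y, RKHS.kerFun H y (u y), g⟫_ℂ = _
    rw [hgd', sum_inner, sum_inner]
    refine Finset.sum_congr rfl fun y _ => ?_
    rw [RKHS.kerFun_inner, RKHS.kerFun_inner, hg, ContinuousLinearMap.star_eq_adjoint,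
      ContinuousLinearMap.adjoint_inner_left]
  have h3 : ‖g‖ ^ 2 ≤ ‖g'‖ * ‖f‖ := by
    rw [@norm_sq_eq_re_inner ℂ, h2]
    exact re_inner_le_norm _ _
  by_contra hc
  push Not at hc
  nlinarith [norm_nonneg f, norm_nonneg g', mul_le_mul_of_nonneg_right h1 (norm_nonneg f)]

lemma kern (t : ℝ) (h1 : -1 / 2 ≤ t) (h2 : t ≤ 1) : IsKernel (cc t) := by
  intro m z
  have : (Matrix.of fun i j => cc t i j).PosSemidef := by
    refine Matrix.PosSemidef.of_dotProduct_mulVec_nonneg ?_ fun x => ?_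
    · ext i j
      simp only [cc, Matrix.conjTranspose_apply, Matrix.of_apply, eq_comm (a := j)]
      split_ifs <;> simp
    · simp only [dotProduct, Matrix.mulVec, Fin.sum_univ_three, cc, Matrix.of_apply]
      simp [Complex.le_def]
      constructor
      · nlinarith [sq_nonneg ((x 0).re + (x 1).re + (x 2).re), sq_nonneg ((x 0).im + (x 1).im + (x 2).im),
          mul_nonneg (by linarith : 0 ≤ 1 + 2 * t) (sq_nonneg ((x 0).re + (x 1).re + (x 2).re)),
          mul_nonneg (by linarith : 0 ≤ 1 + 2 * t) (sq_nonneg ((x 0).im + (x 1).im + (x 2).im)),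
          mul_nonneg (by linarith : 0 ≤ 1 - t) (sq_nonneg ((x 0).re - (x 1).re)),
          mul_nonneg (by linarith : 0 ≤ 1 - t) (sq_nonneg ((x 0).re - (x 2).re)),
          mul_nonneg (by linarith : 0 ≤ 1 - t) (sq_nonneg ((x 1).re - (x 2).re)),
          mul_nonneg (by linarith : 0 ≤ 1 - t) (sq_nonneg ((x 0).im - (x 1).im)),
          mul_nonneg (by linarith : 0 ≤ 1 - t) (sq_nonneg ((x 0).im - (x 2).im)),
          mul_nonneg (by linarith : 0 ≤ 1 - t) (sq_nonneg ((x 1).im - (x 2).im))]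
      · ring
  exact this.submatrix z

theorem result : ∃ k l : Fin 3 → Fin 3 → ℂ, IsKernel k ∧ IsKernel l ∧ (∀ x y, k x y ≠ 0) ∧
    PseudoPick k l ∧ ¬ IsKernel (fun x y => l x y / k x y) := by
  refine ⟨cc (-1 / 2), cc (1 / 3), kern _ (by norm_num) (by norm_num),
    kern _ (by norm_num) (by norm_num), fun x y => ?_, fun n hn z W h => ?_, fun h => ?_⟩
  · unfold cc; split_ifs <;> norm_num
  · classical
    let σ : Fin 3 → Fin n := fun x => if hx : ∃ i, z i = x then hx.choose else ⟨0, hn⟩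
    refine ⟨W ∘ σ, mult _ (lpos (pull _ _ _ h σ)), fun i => ?_⟩
    have hx : ∃ j, z j = z i := ⟨i, rfl⟩
    simp only [Function.comp, σ, dif_pos hx]
    exact same h _ _ hx.choose_spec
  · have := (h 3 id).dotProduct_mulVec_nonneg fun _ => 1
    simp [dotProduct, Matrix.mulVec, Fin.sum_univ_three, cc, Complex.le_def] at this
    norm_num at this

end Pool.Agent.Results.MP_cbd977_an.Counter
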